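import Pool.Agent.CRT.Z2
import Pool.Agent.CRT.Kern

/-!
# Common ranges of co-analytic Toeplitz operators: Drury–Arveson space and Hardy space of the ball

`E d = ℂ^d` with the Euclidean norm, `Ball d` its open unit ball.  Both Hilbert spaces are the standard
weighted spaces of power series `∑ a_α z^α`: `∑ |a_α|² w(α) < ∞` with `w(α) = ‖z^α‖²`, i.e.
`wD(α) = α!/|α|!` for the Drury–Arveson space `H²_d` (kernel `1/(1-<z,w>)`) and
`wH(α) = α!(d-1)!/(|α|+d-1)!` for the Hardy space `H²(∂B_d)` (kernel `1/(1-<z,w>)^d`).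
That these are the reproducing kernels is proved in `Pool.Agent.CRT.kernel_DA`, `Pool.Agent.CRT.kernel_H`
(file `CRT/Kern.lean`); that `wH α` is the square of the norm of `z^α` in `L²(σ)`, `σ` the normalised
surface measure, is part of `Pool.Agent.CRT.S1` (a measure `σ` with the property `IsSig`).
-/

set_option autoImplicit false

namespace Pool.Agent.Results.MP_f97f35_an.CommonRanges

open Pool.Agent.CRT MvPowerSeries

/-- the open unit ball of `ℂ^d` -/
abbrev Ball (d : ℕ) := {z : E d // ‖z‖ < 1}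

/-- the function `F` on the ball is the sum of the (absolutely convergent) power series `f` -/
def HasSeries {d : ℕ} (F : Ball d → ℂ) (f : PS d) : Prop :=
  ∀ z : Ball d, HasSum (fun α => coeff α f * mono z.1 α) (F z)

/-- the Hilbert space, with weights `w`, as a set of functions on the ball -/
def Fn {d : ℕ} (w : MI d → ℝ) : Set (Ball d → ℂ) := {F | ∃ f ∈ Sp w, HasSeries F f}

/-- the power series of a function on the ball (`0` if there is none; it is unique) -/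
noncomputable def ser {d : ℕ} (F : Ball d → ℂ) : PS d :=
  open Classical in if h : ∃ f, HasSeries F f then Classical.choose h else 0

/-- the inner product of two functions in the space with weights `w` -/
noncomputable def inn {d : ℕ} (w : MI d → ℝ) (F G : Ball d → ℂ) : ℂ := ip w (ser F) (ser G)

/-- the multipliers of `H²_d`: all functions `m` on the ball with `mF ∈ H²_d` for all `F ∈ H²_d` -/
def MultDA (d : ℕ) : Set (Ball d → ℂ) := {m | ∀ F ∈ Fn (wD (d := d)), m * F ∈ Fn (wD (d := d))}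

/-- the bounded holomorphic functions on the ball -/
def HInfty (d : ℕ) : Set (Ball d → ℂ) :=
  {m | (∃ f, HasSeries m f) ∧ ∃ C : ℝ, ∀ z, ‖m z‖ ≤ C}

/-- the range of `M_m^*` on the space with weights `w`: the functions `F` of the space such that there is
`G` in the space with `<mH, G> = <H, F>` for all `H` in the space (`M_m^* G = F`) -/
def ranT {d : ℕ} (w : MI d → ℝ) (m : Ball d → ℂ) : Set (Ball d → ℂ) :=
  {F | F ∈ Fn w ∧ ∃ G ∈ Fn w, ∀ H ∈ Fn w, m * H ∈ Fn w ∧ inn w (m * H) G = inn w H F}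

/-- `R_DA(d)` -/
def RangeDA (d : ℕ) : Set (Ball d → ℂ) := {F | ∀ m ∈ MultDA d, m ≠ 0 → F ∈ ranT wD m}

/-- `R_H(d)` -/
def RangeH (d : ℕ) : Set (Ball d → ℂ) := {F | ∀ m ∈ HInfty d, m ≠ 0 → F ∈ ranT wH m}

/-! ### the proof -/

/-- extension of a function on the ball by `0` -/
noncomputable def ext {d : ℕ} (F : Ball d → ℂ) (z : E d) : ℂ :=
  open Classical in if h : ‖z‖ < 1 then F ⟨z, h⟩ else 0

theorem ext_apply {d : ℕ} (F : Ball d → ℂ) (z : Ball d) : ext F z.1 = F z := by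
  unfold ext
  rw [dif_pos z.2]

theorem hasSeries_iff {d : ℕ} (F : Ball d → ℂ) (f : PS d) : HasSeries F f ↔ IsTS (ext F) f := by
  constructor
  · intro h z hz
    have := h ⟨z, hz⟩
    rw [show ext F z = F ⟨z, hz⟩ from ext_apply F ⟨z, hz⟩]
    exact this
  · intro h z
    have := h z.1 z.2
    rwa [ext_apply] at this

theorem ext_mul {d : ℕ} (F G : Ball d → ℂ) : ext (F * G) = fun z => ext F z * ext G z := by
  funext z
  unfold ext
  by_cases hz : ‖z‖ < 1
  · simp [hz]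
  · simp [hz]

theorem HasSeries.unique {d : ℕ} {F : Ball d → ℂ} {f g : PS d} (hf : HasSeries F f)
    (hg : HasSeries F g) : f = g :=
  P2a ((hasSeries_iff F f).1 hf) ((hasSeries_iff F g).1 hg)

theorem HasSeries.mul {d : ℕ} {F G : Ball d → ℂ} {f g : PS d} (hf : HasSeries F f)
    (hg : HasSeries G g) : HasSeries (F * G) (f * g) := by
  rw [hasSeries_iff, ext_mul]
  exact P2b ((hasSeries_iff F f).1 hf) ((hasSeries_iff G g).1 hg)

theorem ser_eq {d : ℕ} {F : Ball d → ℂ} {f : PS d} (hf : HasSeries F f) : ser F = f := by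
  unfold ser
  have h : ∃ f, HasSeries F f := ⟨f, hf⟩
  rw [dif_pos h]
  exact (Classical.choose_spec h).unique hf

theorem hasSeries_zero {d : ℕ} : HasSeries (0 : Ball d → ℂ) 0 := by
  intro z
  simp only [map_zero, zero_mul, Pi.zero_apply]
  exact hasSum_zero

/-- the function of a power series converging on the ball -/
theorem hasSeries_ev {d : ℕ} {f : PS d}
    (h : ∀ z : E d, ‖z‖ < 1 → Summable fun α => ‖coeff α f * mono z α‖) :
    HasSeries (fun z : Ball d => ev f z.1) f := fun z => P2e h z.1 z.2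

theorem hasSeries_ne_zero {d : ℕ} {m : Ball d → ℂ} {μ : PS d} (h : HasSeries m μ) (hm : m ≠ 0) :
    μ ≠ 0 := by
  rintro rfl
  apply hm
  funext z
  have h1 := h z
  have h2 := (hasSeries_zero (d := d)) z
  exact h1.unique h2

theorem hasSeries_ne_zero' {d : ℕ} {m : Ball d → ℂ} {μ : PS d} (h : HasSeries m μ) (hμ : μ ≠ 0) :
    m ≠ 0 := by
  rintro rfl
  exact hμ (h.unique hasSeries_zero)

theorem conv_Sp {d : ℕ} (hd : 1 ≤ d) {f : PS d} (hf : f ∈ Sp (wH (d := d))) :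
    HasSeries (fun z : Ball d => ev f z.1) f := hasSeries_ev fun _ hz => (A9 hd hf hz).1

/-- the ranges: function level and series level -/
theorem ranT_iff {d : ℕ} {w : MI d → ℝ}
    (hw : ∀ f : PS d, f ∈ Sp w → HasSeries (fun z : Ball d => ev f z.1) f)
    {m : Ball d → ℂ} {μ : PS d} (hm : HasSeries m μ) {F : Ball d → ℂ} {f : PS d}
    (hF : HasSeries F f) : F ∈ ranT w m ↔ f ∈ ranAdj w μ := by
  constructor
  · rintro ⟨⟨f', hf', hFf'⟩, G, ⟨g, hg, hG⟩, H⟩
    obtain rfl := hF.unique hFf'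
    refine ⟨hf', g, hg, fun h hh => ?_⟩
    obtain ⟨⟨k, hk, hmk⟩, h2⟩ := H _ ⟨h, hh, hw h hh⟩
    have e1 : k = μ * h := hmk.unique (hm.mul (hw h hh))
    refine ⟨e1 ▸ hk, ?_⟩
    unfold inn at h2
    rwa [ser_eq hmk, ser_eq hG, ser_eq (hw h hh), ser_eq hF, e1] at h2
  · rintro ⟨hf, g, hg, H⟩
    refine ⟨⟨f, hf, hF⟩, _, ⟨g, hg, hw g hg⟩, ?_⟩
    rintro K ⟨h, hh, hK⟩
    obtain ⟨h1, h2⟩ := H h hh
    have hmK := hm.mul hK
    refine ⟨⟨_, h1, hmK⟩, ?_⟩
    unfold inn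
    rw [ser_eq hmK, ser_eq (hw g hg), ser_eq hK, ser_eq hF, h2]

theorem one_mem {d : ℕ} (w : MI d → ℝ) : (1 : PS d) ∈ Sp w := by
  apply poly_Sp
  refine ⟨0, fun α hα => ?_⟩
  rw [coeff_one, if_neg]
  rintro rfl
  simp at hα

theorem hasSeries_one {d : ℕ} : HasSeries (1 : Ball d → ℂ) 1 := by
  intro z
  have := hasSum_single (f := fun α => coeff α (1 : PS d) * mono z.1 α) 0 (by
    intro α hα
    rw [coeff_one, if_neg hα, zero_mul])
  simpa [mono] using this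

theorem multDA_iff {d : ℕ} (hd : 1 ≤ d) {m : Ball d → ℂ} :
    m ∈ MultDA d ↔ ∃ μ ∈ MultD d, HasSeries m μ := by
  have hw : ∀ f : PS d, f ∈ Sp (wD (d := d)) → HasSeries (fun z : Ball d => ev f z.1) f :=
    fun f hf => conv_Sp hd (SpD_SpH hd hf).1
  constructor
  · intro hm
    obtain ⟨μ, hμ, hmμ⟩ := hm 1 ⟨1, one_mem _, hasSeries_one⟩
    rw [mul_one] at hmμ
    refine ⟨μ, fun h hh => ?_, hmμ⟩
    obtain ⟨k, hk, hmk⟩ := hm _ ⟨h, hh, hw h hh⟩
    have e1 : k = μ * h := hmk.unique (hmμ.mul (hw h hh))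
    exact e1 ▸ hk
  · rintro ⟨μ, hμ, hmμ⟩ F ⟨f, hf, hF⟩
    exact ⟨μ * f, hμ f hf, hmμ.mul hF⟩

theorem hInfty_iff {d : ℕ} {m : Ball d → ℂ} :
    m ∈ HInfty d ↔ ∃ μ ∈ Hinf d, HasSeries m μ := by
  constructor
  · rintro ⟨⟨μ, hμ⟩, C, hC⟩
    refine ⟨μ, ⟨fun z hz => ?_, C, fun z hz => ?_⟩, hμ⟩
    · exact (P2c ((hasSeries_iff m μ).1 hμ) hz).2.1
    · have := P2f ((hasSeries_iff m μ).1 hμ) hz
      rw [← this, ext_apply m ⟨z, hz⟩]
      exact hC _
  · rintro ⟨μ, ⟨_, C, hC⟩, hmμ⟩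
    refine ⟨⟨μ, hmμ⟩, C, fun z => ?_⟩
    have := P2f ((hasSeries_iff m μ).1 hmμ) z.2
    rw [ext_apply] at this
    rw [this]
    exact hC z.1 z.2

theorem RangeDA_iff {d : ℕ} (hd : 1 ≤ d) {F : Ball d → ℂ} :
    F ∈ RangeDA d ↔ ∃ f ∈ RD d, HasSeries F f := by
  have hw : ∀ f : PS d, f ∈ Sp (wD (d := d)) → HasSeries (fun z : Ball d => ev f z.1) f :=
    fun f hf => conv_Sp hd (SpD_SpH hd hf).1
  constructor
  · intro hF
    -- `F` has a series: take `m = 1`
    have h1 : (1 : Ball d → ℂ) ∈ MultDA d := by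
      intro G hG
      rwa [one_mul]
    have h1' : (1 : Ball d → ℂ) ≠ 0 := hasSeries_ne_zero' hasSeries_one one_ne_zero
    obtain ⟨⟨f, hf, hFf⟩, _⟩ := hF 1 h1 h1'
    refine ⟨f, fun μ hμ hμ0 => ?_, hFf⟩
    have hμH := A6 hμ
    have hs : HasSeries (fun z : Ball d => ev μ z.1) μ := hasSeries_ev hμH.1
    exact (ranT_iff hw hs hFf).1
      (hF _ ((multDA_iff hd).2 ⟨μ, hμ, hs⟩) (hasSeries_ne_zero' hs hμ0))
  · rintro ⟨f, hf, hFf⟩ m hm hm0
    obtain ⟨μ, hμ, hmμ⟩ := (multDA_iff hd).1 hm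
    exact (ranT_iff hw hmμ hFf).2 (hf μ hμ (hasSeries_ne_zero hmμ hm0))

theorem RangeH_iff {d : ℕ} (hd : 1 ≤ d) {F : Ball d → ℂ} :
    F ∈ RangeH d ↔ ∃ f ∈ RH d, HasSeries F f := by
  have hw : ∀ f : PS d, f ∈ Sp (wH (d := d)) → HasSeries (fun z : Ball d => ev f z.1) f :=
    fun f hf => conv_Sp hd hf
  constructor
  · intro hF
    have h1 : (1 : Ball d → ℂ) ∈ HInfty d := ⟨⟨1, hasSeries_one⟩, 1, fun z => by simp⟩
    have h1' : (1 : Ball d → ℂ) ≠ 0 := hasSeries_ne_zero' hasSeries_one one_ne_zero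
    obtain ⟨⟨f, hf, hFf⟩, _⟩ := hF 1 h1 h1'
    refine ⟨f, fun μ hμ hμ0 => ?_, hFf⟩
    have hs : HasSeries (fun z : Ball d => ev μ z.1) μ := hasSeries_ev hμ.1
    exact (ranT_iff hw hs hFf).1
      (hF _ (hInfty_iff.2 ⟨μ, hμ, hs⟩) (hasSeries_ne_zero' hs hμ0))
  · rintro ⟨f, hf, hFf⟩ m hm hm0
    obtain ⟨μ, hμ, hmμ⟩ := hInfty_iff.1 hm
    exact (ranT_iff hw hmμ hFf).2 (hf μ hμ (hasSeries_ne_zero hmμ hm0))

/-- **The common ranges coincide**: `R_DA(d) = R_H(d)` for every `d ≥ 1`, as sets of functions on the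
ball. -/
theorem result (d : ℕ) (hd : 1 ≤ d) : RangeDA d = RangeH d := by
  ext F
  rw [RangeDA_iff hd, RangeH_iff hd, RD_eq_RH hd]

end Pool.Agent.Results.MP_f97f35_an.CommonRanges
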